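import Pool.Agent.helper97.IRO.Spec

set_option autoImplicit false

/-! # Row EMB: the copy of `F` on a standard dyadic interval -/

open MeasureTheory Pool.Agent.LOF

namespace Pool.Agent.IRO

theorem EMB_app (m : ℕ) (a : ℝ) (g : ℝ ≃o ℝ) (t : ℝ) :
    ((Aff m a)⁻¹ * (g * Aff m a) : ℝ ≃o ℝ) t = g (2 ^ m * (t - a)) / 2 ^ m + a := rfl

theorem EMB_gL (m : ℕ) (a : ℝ) (g : ℝ ≃o ℝ) (y : ℝ) (k : ℤ) :
    gL g y k ↔ gL ((Aff m a)⁻¹ * (g * Aff m a) : ℝ ≃o ℝ) (y / 2 ^ m + a) k := by
  have hm : (0:ℝ) < 2 ^ m := by positivity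
  constructor
  · rintro ⟨e, he, h⟩
    refine ⟨e / 2 ^ m + a, ?_, ?_⟩
    · have : e / 2 ^ m < y / 2 ^ m := div_lt_div_of_pos_right he hm
      linarith
    · intro t h1 h2
      have h3 : e < 2 ^ m * (t - a) := by
        have : e / 2 ^ m < t - a := by linarith
        rwa [div_lt_iff₀ hm, mul_comm] at this
      have h4 : 2 ^ m * (t - a) ≤ y := by
        have : t - a ≤ y / 2 ^ m := by linarith
        rwa [le_div_iff₀ hm, mul_comm] at this
      rw [EMB_app, h _ h3 h4]
      field_simp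
      ring
  · rintro ⟨e, he, h⟩
    refine ⟨2 ^ m * (e - a), ?_, ?_⟩
    · have : e - a < y / 2 ^ m := by linarith
      rwa [lt_div_iff₀ hm, mul_comm] at this
    · intro z h1 h2
      have h3 : e < z / 2 ^ m + a := by
        have : e - a < z / 2 ^ m := by rwa [lt_div_iff₀ hm, mul_comm]
        linarith
      have h4 : z / 2 ^ m + a ≤ y / 2 ^ m + a := by
        have : z / 2 ^ m ≤ y / 2 ^ m := div_le_div_of_nonneg_right h2 hm.le
        linarith
      have h5 := h _ h3 h4
      have h6 : 2 ^ m * (z / 2 ^ m + a - a) = z := by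
        field_simp
        ring
      rw [EMB_app, h6] at h5
      field_simp at h5
      linarith

theorem EMB_gR (m : ℕ) (a : ℝ) (g : ℝ ≃o ℝ) (y : ℝ) (k : ℤ) :
    gR g y k ↔ gR ((Aff m a)⁻¹ * (g * Aff m a) : ℝ ≃o ℝ) (y / 2 ^ m + a) k := by
  have hm : (0:ℝ) < 2 ^ m := by positivity
  constructor
  · rintro ⟨e, he, h⟩
    refine ⟨e / 2 ^ m + a, ?_, ?_⟩
    · have : y / 2 ^ m < e / 2 ^ m := div_lt_div_of_pos_right he hm
      linarith
    · intro t h1 h2
      have h3 : 2 ^ m * (t - a) < e := by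
        have : t - a < e / 2 ^ m := by linarith
        rwa [lt_div_iff₀ hm, mul_comm] at this
      have h4 : y ≤ 2 ^ m * (t - a) := by
        have : y / 2 ^ m ≤ t - a := by linarith
        rwa [div_le_iff₀ hm, mul_comm] at this
      rw [EMB_app, h _ h4 h3]
      field_simp
      ring
  · rintro ⟨e, he, h⟩
    refine ⟨2 ^ m * (e - a), ?_, ?_⟩
    · have : y / 2 ^ m < e - a := by linarith
      rwa [div_lt_iff₀ hm, mul_comm] at this
    · intro z h1 h2
      have h3 : z / 2 ^ m + a < e := by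
        have : z / 2 ^ m < e - a := by rwa [div_lt_iff₀ hm, mul_comm]
        linarith
      have h4 : y / 2 ^ m + a ≤ z / 2 ^ m + a := by
        have : y / 2 ^ m ≤ z / 2 ^ m := div_le_div_of_nonneg_right h1 hm.le
        linarith
      have h5 := h _ h4 h3
      have h6 : 2 ^ m * (z / 2 ^ m + a - a) = z := by
        field_simp
        ring
      rw [EMB_app, h6] at h5
      field_simp at h5
      linarith

theorem EMB_dy1 {m : ℕ} {a t : ℝ} (ha : IsDyadic a) (ht : IsDyadic t) :
    IsDyadic (((Aff m a)⁻¹ : ℝ ≃o ℝ) t) := by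
  rw [Aff_inv_apply]
  have : t / 2 ^ m = 2 ^ (-(m:ℤ)) * t := by
    rw [zpow_neg, zpow_natCast]
    field_simp
  rw [this]
  exact (ht.pow_mul _).add ha

theorem EMB_dy2 {m : ℕ} {a t : ℝ} (ha : IsDyadic a) (ht : IsDyadic t) :
    IsDyadic (Aff m a t) := by
  rw [Aff_apply]
  have := (ht.sub ha).pow_mul (m : ℤ)
  rwa [zpow_natCast] at this

/-- outside `(a, a + 2 ^ (-m))` -/
theorem EMB_out {m : ℕ} {a x : ℝ} (hx : x ∉ Set.Ioo a (a + 1 / 2 ^ m)) :
    2 ^ m * (x - a) ∉ Set.Ioo (0 : ℝ) 1 := by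
  have hm : (0:ℝ) < 2 ^ m := by positivity
  intro h
  apply hx
  constructor
  · have := (mul_pos_iff_of_pos_left hm).mp h.1
    linarith
  · have h2 := h.2
    have : x - a < 1 / 2 ^ m := by rwa [lt_div_iff₀ hm, mul_comm]
    linarith

theorem EMB_mem {m : ℕ} {a : ℝ} (ha : IsDyadic a) (h0 : 0 ≤ a) (h1 : a + 1 / 2 ^ m ≤ 1) (g : F) :
    ((Aff m a)⁻¹ * (g.1 * Aff m a) : ℝ ≃o ℝ) ∈ F := by
  have hm : (0:ℝ) < 2 ^ m := by positivity
  refine ⟨?_, ?_⟩
  · intro x hx
    rw [EMB_app, F.out g.2 (EMB_out (m := m) (a := a) fun h => hx ⟨h0.trans_lt h.1,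
      h.2.trans_le h1⟩)]
    field_simp
    ring
  · obtain ⟨_, B, hB, hPL⟩ := g.2
    refine ⟨_, ?_, ((Aff_pl m a).inv).mul (hPL.mul (Aff_pl m a))⟩
    intro b hb
    rw [Finset.mem_union] at hb
    rcases hb with hb | hb
    · rw [Finset.mem_union] at hb
      rcases hb with hb | hb
      · exact absurd hb (Finset.notMem_empty b)
      · rw [Finset.mem_image] at hb
        obtain ⟨c, hc, rfl⟩ := hb
        exact EMB_dy1 ha (hB c hc)
    · rw [Finset.image_empty, Finset.image_empty] at hb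
      exact absurd hb (Finset.notMem_empty b)

theorem EMB : EMB_stmt := by
  intro m j hj
  have hm : (0:ℝ) < 2 ^ m := by positivity
  set a : ℝ := (j : ℝ) / 2 ^ m with hadef
  have ha : IsDyadic a := ⟨j, m, by rw [hadef]; push_cast; rfl⟩
  have h0 : 0 ≤ a := by positivity
  have hb : ((j : ℝ) + 1) / 2 ^ m = a + 1 / 2 ^ m := by rw [hadef, add_div]
  have h1 : a + 1 / 2 ^ m ≤ 1 := by
    rw [← hb, div_le_one hm]
    exact_mod_cast hj
  let φ : F →* F :=
    { toFun := fun g => ⟨(Aff m a)⁻¹ * (g.1 * Aff m a), EMB_mem ha h0 h1 g⟩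
      map_one' := by
        apply Subtype.ext
        show (Aff m a)⁻¹ * (1 * Aff m a) = 1
        rw [one_mul, inv_mul_cancel]
      map_mul' := fun g h => by
        apply Subtype.ext
        show (Aff m a)⁻¹ * (g.1 * h.1 * Aff m a) =
          (Aff m a)⁻¹ * (g.1 * Aff m a) * ((Aff m a)⁻¹ * (h.1 * Aff m a))
        group }
  have hφ : ∀ g : F, (φ g).1 = (Aff m a)⁻¹ * (g.1 * Aff m a) := fun g => rfl
  refine ⟨φ, ?_, ?_, ?_, ?_⟩
  · apply le_antisymm
    · rintro _ ⟨g, rfl⟩
      rw [mem_FI, hb]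
      intro x hx
      rw [hφ, EMB_app, F.out g.2 (EMB_out hx)]
      field_simp
      ring
    · intro h hh
      rw [mem_FI, hb] at hh
      have hg : (Aff m a * (h.1 * (Aff m a)⁻¹) : ℝ ≃o ℝ) ∈ F := by
        refine ⟨?_, ?_⟩
        · intro x hx
          show Aff m a (h.1 (((Aff m a)⁻¹ : ℝ ≃o ℝ) x)) = x
          rw [Aff_inv_apply, hh]
          · rw [Aff_apply]
            field_simp
            ring
          · intro h2
            apply hx
            constructor
            · have h3 : 0 < x / 2 ^ m := by linarith [h2.1]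
              exact (div_pos_iff_of_pos_right hm).mp h3
            · have h3 : x / 2 ^ m < 1 / 2 ^ m := by linarith [h2.2]
              rwa [div_lt_div_iff_of_pos_right hm] at h3
        · obtain ⟨_, B, hB, hPL⟩ := h.2
          refine ⟨_, ?_, (Aff_pl m a).mul (hPL.mul (Aff_pl m a).inv)⟩
          intro b hb'
          rw [Finset.mem_union] at hb'
          rcases hb' with hb' | hb'
          · rw [Finset.mem_union] at hb'
            rcases hb' with hb' | hb'
            · rw [Finset.image_empty] at hb'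
              exact absurd hb' (Finset.notMem_empty b)
            · rw [Finset.mem_image] at hb'
              obtain ⟨c, hc, rfl⟩ := hb'
              rw [inv_inv]
              exact EMB_dy2 ha (hB c hc)
          · rw [Finset.image_empty] at hb'
            exact absurd hb' (Finset.notMem_empty b)
      refine ⟨⟨_, hg⟩, ?_⟩
      apply Subtype.ext
      rw [hφ]
      show (Aff m a)⁻¹ * (Aff m a * (h.1 * (Aff m a)⁻¹) * Aff m a) = h.1
      group
  · intro g t
    rw [hφ, EMB_app]
  · intro g k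
    rw [hφ, hb, EMB_gL m a g.1 1 k, add_comm a]
  · intro g k
    rw [hφ, EMB_gR m a g.1 0 k, zero_div, zero_add]

end Pool.Agent.IRO
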