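import Pool.Agent.helper97.IRO.Spec

set_option autoImplicit false

/-! # Row FN8: hyperfiniteness of the conjugacy relation almost everywhere -/

open MeasureTheory Pool.Agent.LOF

namespace Pool.Agent.IRO

theorem FN8_conj_mul (g h : F) (r : LO F) : conj (g * h) r = conj g (conj h r) := by
  apply Subtype.ext
  funext p
  show r.1 (p.1 * (g * h), p.2 * (g * h)) = r.1 (p.1 * g * h, p.2 * g * h)
  rw [mul_assoc, mul_assoc]

theorem FN8_conj_one (r : LO F) : conj 1 r = r := by
  apply Subtype.ext
  funext p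
  show r.1 (p.1 * 1, p.2 * 1) = r.1 p
  rw [mul_one, mul_one]

theorem FN8_meas (g : F) : Measurable (conj g : LO F → LO F) := by
  apply Measurable.subtype_mk
  apply measurable_pi_lambda
  intro p
  exact (measurable_pi_apply (p.1 * g, p.2 * g)).comp measurable_subtype_coe

theorem FN8_fix_meas (g : F) : MeasurableSet {r : LO F | conj g r = r} := by
  have h1 : {r : LO F | conj g r = r} =
      ⋂ p : F × F, {r : LO F | r.1 (p.1 * g, p.2 * g) = r.1 p} := by
    ext r
    rw [Set.mem_iInter, Set.mem_setOf_eq]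
    constructor
    · intro h p
      have := congrFun (congrArg Subtype.val h) p
      exact this
    · intro h
      apply Subtype.ext
      funext p
      exact h p
  rw [h1]
  apply MeasurableSet.iInter
  intro p
  have hm1 : Measurable (fun r : LO F => r.1 (p.1 * g, p.2 * g)) :=
    (measurable_pi_apply (p.1 * g, p.2 * g)).comp measurable_subtype_coe
  have hm2 : Measurable (fun r : LO F => r.1 p) :=
    (measurable_pi_apply p).comp measurable_subtype_coe
  exact measurableSet_eq_fun hm1 hm2

theorem FN8_Fix_meas : MeasurableSet {r : LO F | ∀ g : F, conj g r = r} := by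
  have h1 : {r : LO F | ∀ g : F, conj g r = r} = ⋂ g : F, {r : LO F | conj g r = r} := by
    ext r
    simp
  rw [h1]
  exact MeasurableSet.iInter FN8_fix_meas

theorem FN8_Fix_conj (g : F) (r : LO F) :
    (∀ h : F, conj h (conj g r) = conj g r) ↔ ∀ h : F, conj h r = r := by
  constructor
  · intro h1 h
    have h2 := h1 g⁻¹
    rw [← FN8_conj_mul, inv_mul_cancel, FN8_conj_one] at h2
    have h3 := h1 h
    rw [← h2] at h3
    exact h3
  · intro h1 h
    rw [h1 g, h1 h]

theorem FN8 (hFN5 : FN5_stmt) (hFN7 : FN7_stmt) : FN8_stmt := by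
  intro ν _ hinv Y hY hY0 hyp
  set Fx : Set (LO F) := {r | ∀ g : F, conj g r = r} with hFx
  have hFm : MeasurableSet Fx := FN8_Fix_meas
  by_cases hc : ν Fxᶜ = 0
  · left
    have := prob_add_prob_compl (μ := ν) hFm
    rwa [hc, add_zero] at this
  right
  let act : MulAction F (LO F) :=
    { smul := fun g r => conj g r
      one_smul := FN8_conj_one
      mul_smul := FN8_conj_mul }
  have hsm : ∀ (g : F) (r : LO F), g • r = conj g r := fun g r => rfl
  set ν' : Measure (LO F) := (ν Fxᶜ)⁻¹ • ν.restrict Fxᶜ with hν'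
  have hcf : ν Fxᶜ ≠ ⊤ := measure_ne_top ν _
  have hprob : IsProbabilityMeasure ν' := by
    constructor
    rw [hν', Measure.smul_apply, Measure.restrict_apply_univ, smul_eq_mul,
      ENNReal.inv_mul_cancel hc hcf]
  have hinv' : ∀ g : F, ν'.map (conj g) = ν' := by
    intro g
    rw [hν', Measure.map_smul]
    congr 1
    ext A hA
    rw [Measure.map_apply (FN8_meas g) hA, Measure.restrict_apply (FN8_meas g hA),
      Measure.restrict_apply hA]
    have h1 : conj g ⁻¹' A ∩ Fxᶜ = conj g ⁻¹' (A ∩ Fxᶜ) := by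
      ext r
      simp only [Set.mem_inter_iff, Set.mem_preimage, Set.mem_compl_iff, hFx, Set.mem_setOf_eq]
      rw [FN8_Fix_conj g r]
    rw [h1]
    have h2 := congrArg (fun μ : Measure (LO F) => μ (A ∩ Fxᶜ)) (hinv g)
    rwa [Measure.map_apply (FN8_meas g) (hA.inter hFm.compl)] at h2
  have hfree : ∀ g : F, g ≠ 1 → ν' {r | conj g r = r} = 0 := by
    intro g hg
    rw [hν', Measure.smul_apply, Measure.restrict_apply (FN8_fix_meas g), smul_eq_mul]
    have h1 : {r : LO F | conj g r = r} ∩ Fxᶜ =
        {r | conj g r = r ∧ ¬ ∀ h : F, conj h r = r} := by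
      ext r
      simp [hFx]
    have h2 : MeasurableSet {r : LO F | conj g r = r ∧ ¬ ∀ h : F, conj h r = r} := by
      rw [← h1]
      exact (FN8_fix_meas g).inter hFm.compl
    obtain ⟨m, _, hm⟩ := hFN5 ν hinv
    rw [h1, hm _ h2]
    have h3 : ∀ w : Bool × Q × unitInterval,
        law w.1 w.2.1 w.2.2 {r | conj g r = r ∧ ¬ ∀ h : F, conj h r = r} = 0 :=
      fun w => hFN7 w.1 w.2.1 w.2.2 g hg
    simp only [h3, lintegral_zero, mul_zero]
  have hY0' : ν' Yᶜ = 0 := by
    rw [hν', Measure.smul_apply, smul_eq_mul, Measure.restrict_apply hY.compl]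
    have : ν (Yᶜ ∩ Fxᶜ) = 0 := measure_mono_null Set.inter_subset_left hY0
    rw [this, mul_zero]
  exact amenable_of_pullback (G := F) (X := LO F) (L := LO F) (fun g => FN8_meas g) ν'
    (fun g => hinv' g) (fun g hg => hfree g hg) (Elo F) id measurable_id Function.injective_id
    (fun g x => ⟨g, rfl⟩) Y hY (by rw [Set.preimage_id]; exact hY0') hyp.sub

end Pool.Agent.IRO
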