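import Pool.Agent.helper44.IRO.FN8

set_option autoImplicit false

/-! # Row ME4: the types of the intervals with an end at `0` or `1`, almost surely -/

open MeasureTheory Pool.Agent.LOF

namespace Pool.Agent.IRO

theorem ME4_ab {Ω I : Type*} [MeasurableSpace Ω] [Countable I] (ν : Measure Ω)
    [IsFiniteMeasure ν] (A B : I → Set Ω) (hA : ∀ i, MeasurableSet (A i))
    (heq : ∀ i j, ν (A i) = ν (A j)) (rel : I → I → Prop) (hex : ∀ i, ∃ j, rel i j)
    (htot : ∀ i j, i = j ∨ rel i j ∨ rel j i)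
    (hsub : ∀ i j, rel i j → ∀ᵐ r ∂ν, r ∈ A j → r ∈ A i ∧ r ∉ B i) :
    ∀ᵐ r ∂ν, (∀ i, r ∉ A i) ∨ ∀ i, r ∉ B i := by
  have h1 : ∀ i j, rel i j → ∀ᵐ r ∂ν, (r ∈ A j ↔ r ∈ A i) := by
    intro i j hij
    have h2 : A j ≤ᵐ[ν] A i := by
      filter_upwards [hsub i j hij] with r hr h3
      exact (hr h3).1
    have h4 : A j =ᵐ[ν] A i := ae_eq_of_ae_subset_of_measure_ge h2 (heq i j).le
      (hA j).nullMeasurableSet (measure_ne_top ν _)
    filter_upwards [h4] with r hr
    exact iff_of_eq hr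
  have h5 : ∀ i j, rel i j → ∀ᵐ r ∂ν, (r ∈ A j ↔ r ∈ A i \ B i) := by
    intro i j hij
    have h2 : A j ≤ᵐ[ν] (A i \ B i : Set Ω) := by
      filter_upwards [hsub i j hij] with r hr h3
      exact hr h3
    have h4 : A j =ᵐ[ν] (A i \ B i : Set Ω) := ae_eq_of_ae_subset_of_measure_ge h2
      ((measure_mono Set.diff_subset).trans (heq i j).le)
      (hA j).nullMeasurableSet (measure_ne_top ν _)
    filter_upwards [h4] with r hr
    exact iff_of_eq hr
  have h6 : ∀ i j, ∀ᵐ r ∂ν, (r ∈ A i → r ∈ A j) := by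
    intro i j
    rcases htot i j with h | h | h
    · subst h
      exact Filter.Eventually.of_forall fun r hr => hr
    · filter_upwards [h1 i j h] with r hr h7
      exact hr.mpr h7
    · filter_upwards [h1 j i h] with r hr h7
      exact hr.mp h7
  have h7 : ∀ i, ∀ᵐ r ∂ν, (r ∈ A i → r ∉ B i) := by
    intro i
    obtain ⟨j, hj⟩ := hex i
    filter_upwards [h1 i j hj, h5 i j hj] with r hr hr' h8
    exact (hr'.mp (hr.mpr h8)).2
  have h8 : ∀ᵐ r ∂ν, ∀ i j, (r ∈ A i → r ∈ A j) :=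
    ae_all_iff.mpr fun i => ae_all_iff.mpr fun j => h6 i j
  have h9 : ∀ᵐ r ∂ν, ∀ i, (r ∈ A i → r ∉ B i) := ae_all_iff.mpr h7
  filter_upwards [h8, h9] with r hr hr'
  by_cases h10 : ∃ i, r ∈ A i
  · right
    obtain ⟨i, hi⟩ := h10
    intro j
    exact hr' j (hr i j hi)
  · left
    intro i hi
    exact h10 ⟨i, hi⟩

theorem ME4_countable : Countable D := by
  have hinj : Function.Injective (fun y : D => (⟨y.1, y.2.1⟩ : {x : ℝ // IsDyadic x})) := by
    intro a b h
    apply Subtype.ext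
    exact Subtype.mk.inj h
  exact hinj.countable

theorem ME4_move (hG5 : G5_stmt) (x y : D) : ∃ g : F, g.1 x.1 = y.1 := by
  obtain ⟨g, hg⟩ := hG5 1 (fun _ => x.1) (fun _ => y.1) (fun _ => ⟨x.2.1, x.2.2.1, x.2.2.2⟩)
    (fun _ => ⟨y.2.1, y.2.2.1, y.2.2.2⟩) (Subsingleton.strictMono _) (Subsingleton.strictMono _)
  exact ⟨g, hg 0⟩

theorem ME4 (hT3 : T3_stmt) (hT4 : T4_stmt) (hME1 : ME1_stmt) (hME2 : ME2_stmt)
    (hG5 : G5_stmt) : ME4_stmt := by
  intro ν _ hinv
  have hcount := ME4_countable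
  obtain ⟨hmA, hmB, _, hconj, _⟩ := hME2
  have hC := hME1 ν hinv
  have hd0 : IsDyadic 0 := by simpa using IsDyadic.int 0
  have hd1 : IsDyadic 1 := by simpa using IsDyadic.int 1
  have hnu : ∀ (g : F) (S : Set (LO F)), MeasurableSet S → ν (conj g ⁻¹' S) = ν S := by
    intro g S hS
    rw [← Measure.map_apply (FN8_meas g) hS, hinv g]
  constructor
  · have key := ME4_ab ν (fun y : D => {r : LO F | Aty (Pr r) 0 y.1})
      (fun y : D => {r : LO F | Bty (Pr r) 0 y.1}) (fun y => hmA 0 y.1) ?_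
      (fun x y : D => x.1 < y.1) ?_ ?_ ?_
    · filter_upwards [key] with r hr
      rcases hr with h | h
      · exact Or.inl fun b h1 h2 h3 => h ⟨b, h1, h2, h3⟩
      · exact Or.inr fun b h1 h2 h3 => h ⟨b, h1, h2, h3⟩
    · intro x y
      obtain ⟨g, hg⟩ := ME4_move hG5 x y
      have h0 : g.1 0 = 0 := F.out g.2 (by simp)
      rw [← hnu g _ (hmA 0 y.1)]
      congr 1
      ext r
      have h1 := (hconj g r 0 x.1).1
      rw [h0, hg] at h1
      exact h1.symm
    · intro x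
      refine ⟨⟨(x.1 + 1) / 2, ?_, ?_, ?_⟩, ?_⟩
      · have h1 := (x.2.1.add hd1).pow_mul (-1)
        have h2 : (2 : ℝ) ^ (-1 : ℤ) * (x.1 + 1) = (x.1 + 1) / 2 := by
          rw [zpow_neg_one]
          ring
        rwa [h2] at h1
      · have := x.2.2.1
        linarith
      · have := x.2.2.2
        linarith
      · have := x.2.2.2
        show x.1 < (x.1 + 1) / 2
        linarith
    · intro x y
      rcases lt_trichotomy x.1 y.1 with h | h | h
      · exact Or.inr (Or.inl h)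
      · exact Or.inl (Subtype.ext h)
      · exact Or.inr (Or.inr h)
    · intro x y hxy
      filter_upwards [hC] with r hr h1
      exact hT3 (Pr r) (cone_LO r) hr 0 x.1 y.1
        ⟨hd0, x.2.1, le_rfl, x.2.2.1, x.2.2.2.le⟩ ⟨hd0, y.2.1, le_rfl, y.2.2.1, y.2.2.2.le⟩ hxy h1
  · have key := ME4_ab ν (fun y : D => {r : LO F | Bty (Pr r) y.1 1})
      (fun y : D => {r : LO F | Aty (Pr r) y.1 1}) (fun y => hmB y.1 1) ?_
      (fun x y : D => y.1 < x.1) ?_ ?_ ?_
    · filter_upwards [key] with r hr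
      rcases hr with h | h
      · exact Or.inr fun b h1 h2 h3 => h ⟨b, h1, h2, h3⟩
      · exact Or.inl fun b h1 h2 h3 => h ⟨b, h1, h2, h3⟩
    · intro x y
      obtain ⟨g, hg⟩ := ME4_move hG5 x y
      have h0 : g.1 1 = 1 := F.out g.2 (by simp)
      rw [← hnu g _ (hmB y.1 1)]
      congr 1
      ext r
      have h1 := (hconj g r x.1 1).2
      rw [h0, hg] at h1
      exact h1.symm
    · intro x
      refine ⟨⟨x.1 / 2, ?_, ?_, ?_⟩, ?_⟩
      · have h1 := x.2.1.pow_mul (-1)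
        have h2 : (2 : ℝ) ^ (-1 : ℤ) * x.1 = x.1 / 2 := by
          rw [zpow_neg_one]
          ring
        rwa [h2] at h1
      · have := x.2.2.1
        linarith
      · have := x.2.2.2
        have := x.2.2.1
        linarith
      · have := x.2.2.1
        show x.1 / 2 < x.1
        linarith
    · intro x y
      rcases lt_trichotomy x.1 y.1 with h | h | h
      · exact Or.inr (Or.inr h)
      · exact Or.inl (Subtype.ext h)
      · exact Or.inr (Or.inl h)
    · intro x y hxy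
      filter_upwards [hC] with r hr h1
      exact hT4 (Pr r) (cone_LO r) hr y.1 x.1 1
        ⟨x.2.1, hd1, x.2.2.1.le, x.2.2.2, le_rfl⟩ ⟨y.2.1, hd1, y.2.2.1.le, y.2.2.2, le_rfl⟩ hxy h1

end Pool.Agent.IRO
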