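import Pool.Agent.helper44.IRO.T3

set_option autoImplicit false

/-! # Row T1: every dyadic interval has a type -/

open MeasureTheory Pool.Agent.LOF

namespace Pool.Agent.IRO

theorem T1_ne_bot (hG4 : G4_stmt) {a b : ℝ} (hab : Dy a b) : FI a b ≠ ⊥ := by
  obtain ⟨c, _, hac, hcb, u, hu, hu1⟩ := (hG4 a b hab.2.2.1 hab.2.2.2.1 hab.2.2.2.2).2 hab.1
  intro h
  have hm : u ∈ FI a b := FI_mono le_rfl hcb.le hu
  rw [h, Subgroup.mem_bot] at hm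
  obtain ⟨e, he, hz⟩ := hu1
  have h1 := hz ((a + e) / 2) (by linarith) (by linarith)
  rw [hm] at h1
  have h2 : ((1 : F).1 : ℝ ≃o ℝ) ((a + e) / 2) = (a + e) / 2 := rfl
  rw [h2] at h1
  norm_num at h1
  linarith

theorem T1_cof (hCT2 : CT2_stmt) (hG4 : G4_stmt) (hG8 : G8_stmt) {P : F → Prop} (hP : Cone P)
    (hC : Conr P) {a b : ℝ} (hab : Dy a b) : ∃ f : F, P f ∧ Cof P (FI a b) f :=
  hCT2 F P hP hC (FI a b) (hG8 a b hab) (T1_ne_bot hG4 hab)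

theorem T1 (hCT2 : CT2_stmt) (hCT5 : CT5_stmt) (hG1 : G1_stmt) (hG2 : G2_stmt) (hG3 : G3_stmt)
    (hG4 : G4_stmt) (hG8 : G8_stmt) (hT2 : T2_stmt) : T1_stmt := by
  intro P hP hC a b hab
  obtain ⟨f, _, hfC⟩ := T1_cof hCT2 hG4 hG8 hP hC hab
  have hfa : f.1 a = a := mem_FI.mp hfC.1 a fun h => lt_irrefl _ h.1
  have hfb : f.1 b = b := mem_FI.mp hfC.1 b fun h => lt_irrefl _ h.2
  obtain ⟨k, hk, _⟩ := (hG1 f a hfa).2
  obtain ⟨l, hl, _⟩ := (hG1 f b hfb).1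
  rcases eq_or_ne k 0 with hk0 | hk0
  · subst hk0
    obtain ⟨a', ha', _, _, hfa'⟩ := (hG3 a b f hab.2.2.2.1 hfC.1).2 hk
    exact Or.inr ⟨f, ⟨a', ha', hfa'⟩, hfC⟩
  rcases eq_or_ne l 0 with hl0 | hl0
  · subst hl0
    obtain ⟨b', _, hb', _, hfb'⟩ := (hG3 a b f hab.2.2.2.1 hfC.1).1 hl
    exact Or.inl ⟨f, ⟨b', hb', hfb'⟩, hfC⟩
  obtain ⟨c, _, hac, hcb, u, hu, hu1⟩ := (hG4 a b hab.2.2.1 hab.2.2.2.1 hab.2.2.2.2).2 hab.1
  obtain ⟨d, _, had, hdb, v, hv, hv1⟩ := (hG4 a b hab.2.2.1 hab.2.2.2.1 hab.2.2.2.2).1 hab.2.1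
  have hum : u ∈ FI a b := FI_mono le_rfl hcb.le hu
  have hvm : v ∈ FI a b := FI_mono had.le le_rfl hv
  set y : F := u ^ k * v ^ l with hy
  have hym : y ∈ FI a b := Subgroup.mul_mem _ (Subgroup.zpow_mem _ hum k)
    (Subgroup.zpow_mem _ hvm l)
  have hyR : gR y.1 a k := by
    have h1 : gR (u ^ k : F).1 a (k * 1) := T3_gR_zpow hG2 u.1 a 1 hu1 k
    have h2 : gR (v ^ l : F).1 a 0 := T3_gR_zero had (Subgroup.zpow_mem _ hv l)
    have h3 := (hG2 (u ^ k : F).1 (v ^ l : F).1 a (k * 1) 0).2.2.1 h1 h2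
    rwa [mul_one, add_zero] at h3
  have hyL : gL y.1 b l := by
    have h1 : gL (u ^ k : F).1 b 0 := T3_gL_zero hcb (Subgroup.zpow_mem _ hu k)
    have h2 : gL (v ^ l : F).1 b (l * 1) := T3_gL_zpow hG2 v.1 b 1 hv1 l
    have h3 := (hG2 (u ^ k : F).1 (v ^ l : F).1 b 0 (l * 1)).1 h1 h2
    rwa [mul_one, zero_add] at h3
  set x : F := f⁻¹ * y with hx
  have hxm : x ∈ FI a b := Subgroup.mul_mem _ (Subgroup.inv_mem _ hfC.1) hym
  have hxR : gR x.1 a 0 := by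
    have h1 : gR (f⁻¹ : F).1 a (-k) := (hG2 f.1 f.1 a k k).2.2.2 hk
    have h3 := (hG2 (f⁻¹ : F).1 y.1 a (-k) k).2.2.1 h1 hyR
    rwa [neg_add_cancel] at h3
  have hxL : gL x.1 b 0 := by
    have h1 : gL (f⁻¹ : F).1 b (-l) := (hG2 f.1 f.1 b l l).2.1 hl
    have h3 := (hG2 (f⁻¹ : F).1 y.1 b (-l) l).1 h1 hyL
    rwa [neg_add_cancel] at h3
  have hxC : ¬ Cof P (FI a b) x := hT2 P hP hC a b x hab hxm hxR hxL
  have hxC' : ¬ Cof P (FI a b) x⁻¹ := by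
    intro h
    have := h.inv
    rw [inv_inv] at this
    exact hxC this
  have hyC : Cof P (FI a b) y := by
    by_contra h
    have h1 := hCT5 F P hP hC (FI a b) y x⁻¹ hym (Subgroup.inv_mem _ hxm) h hxC'
    apply h1
    have h2 : y * x⁻¹ = f := by
      rw [hx]
      group
    rw [h2]
    exact hfC
  by_cases huC : Cof P (FI a b) (u ^ k)
  · exact Or.inl ⟨u, ⟨c, hcb, hu⟩, huC.of_zpow hum⟩
  · by_cases hvC : Cof P (FI a b) (v ^ l)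
    · exact Or.inr ⟨v, ⟨d, had, hv⟩, hvC.of_zpow hvm⟩
    · exact absurd hyC (hCT5 F P hP hC (FI a b) (u ^ k) (v ^ l) (Subgroup.zpow_mem _ hum k)
        (Subgroup.zpow_mem _ hvm l) huC hvC)

end Pool.Agent.IRO
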