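import Pool.Agent.helper97.IRO.Spec

set_option autoImplicit false

/-! # Row T3: the types of intervals with a common left end -/

open MeasureTheory Pool.Agent.LOF

namespace Pool.Agent.IRO

theorem T3_gR_zpow (hG2 : G2_stmt) (u : ℝ ≃o ℝ) (a : ℝ) (l : ℤ) (h : gR u a l) (n : ℤ) :
    gR (u ^ n) a (n * l) := by
  have hnat : ∀ m : ℕ, gR (u ^ m) a (m * l) := by
    intro m
    induction m with
    | zero =>
      refine ⟨a + 1, by linarith, fun z _ _ => ?_⟩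
      rw [pow_zero]
      show z = _
      norm_num
    | succ m ih =>
      rw [pow_succ]
      have := (hG2 (u ^ m) u a (m * l) l).2.2.1 ih h
      push_cast
      rw [add_mul, one_mul]
      exact this
  rcases Int.eq_nat_or_neg n with ⟨m, rfl | rfl⟩
  · rw [zpow_natCast]
    exact hnat m
  · rw [zpow_neg, zpow_natCast, neg_mul]
    exact (hG2 (u ^ m) u a (m * l) l).2.2.2 (hnat m)

theorem T3_gL_zpow (hG2 : G2_stmt) (u : ℝ ≃o ℝ) (a : ℝ) (l : ℤ) (h : gL u a l) (n : ℤ) :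
    gL (u ^ n) a (n * l) := by
  have hnat : ∀ m : ℕ, gL (u ^ m) a (m * l) := by
    intro m
    induction m with
    | zero =>
      refine ⟨a - 1, by linarith, fun z _ _ => ?_⟩
      rw [pow_zero]
      show z = _
      norm_num
    | succ m ih =>
      rw [pow_succ]
      have := (hG2 (u ^ m) u a (m * l) l).1 ih h
      push_cast
      rw [add_mul, one_mul]
      exact this
  rcases Int.eq_nat_or_neg n with ⟨m, rfl | rfl⟩
  · rw [zpow_natCast]
    exact hnat m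
  · rw [zpow_neg, zpow_natCast, neg_mul]
    exact (hG2 (u ^ m) u a (m * l) l).2.1 (hnat m)

/-- an element supported in `[a, c]` with `c < b` is trivial near `b` -/
theorem T3_gL_zero {a c b : ℝ} (hcb : c < b) {g : F} (hg : g ∈ FI a c) : gL g.1 b 0 := by
  refine ⟨c, hcb, fun z hz _ => ?_⟩
  rw [mem_FI.mp hg z fun h => absurd h.2 (not_lt.mpr hz.le)]
  norm_num

/-- an element supported in `[c, b]` with `a < c` is trivial near `a` -/
theorem T3_gR_zero {a c b : ℝ} (hac : a < c) {g : F} (hg : g ∈ FI c b) : gR g.1 a 0 := by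
  refine ⟨c, hac, fun z _ hz => ?_⟩
  rw [mem_FI.mp hg z fun h => absurd h.1 (not_lt.mpr hz.le)]
  norm_num

theorem T3 (hCT5 : CT5_stmt) (hCT6 : CT6_stmt) (hG1 : G1_stmt) (hG2 : G2_stmt) (hG4 : G4_stmt)
    (hT2 : T2_stmt) : T3_stmt := by
  intro P hP hC a b b' hab hab' hbb' hA
  obtain ⟨w, ⟨b1, hb1, hw⟩, hwC⟩ := hA
  have hwa : w.1 a = a := mem_FI.mp hw a fun h => lt_irrefl _ h.1
  obtain ⟨k, hk, _⟩ := (hG1 w a hwa).2
  have hk0 : k ≠ 0 := by
    rintro rfl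
    exact hT2 P hP hC a b' w hab' hwC.1 hk (T3_gL_zero hb1 hw) hwC
  obtain ⟨c, hcd, hac, hcb, u, hu, hu1⟩ := (hG4 a b hab.2.2.1 hab.2.2.2.1 hab.2.2.2.2).2 hab.1
  have huab : u ∈ FI a b := FI_mono le_rfl hcb.le hu
  have huab' : u ∈ FI a b' := FI_mono le_rfl hbb'.le huab
  set x : F := w⁻¹ * u ^ k with hx
  have hxm : x ∈ FI a (max b1 c) := by
    apply Subgroup.mul_mem
    · exact Subgroup.inv_mem _ (FI_mono le_rfl (le_max_left _ _) hw)
    · exact Subgroup.zpow_mem _ (FI_mono le_rfl (le_max_right _ _) hu) k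
  have hmb : max b1 c < b' := max_lt hb1 (hcb.trans hbb')
  have hxR : gR x.1 a 0 := by
    have h1 : gR (w⁻¹ : F).1 a (-k) := (hG2 w.1 w.1 a k k).2.2.2 hk
    have h2 : gR (u ^ k : F).1 a (k * 1) := T3_gR_zpow hG2 u.1 a 1 hu1 k
    have h3 := (hG2 (w⁻¹ : F).1 (u ^ k : F).1 a (-k) (k * 1)).2.2.1 h1 h2
    rwa [mul_one, neg_add_cancel] at h3
  have hxab' : x ∈ FI a b' := FI_mono le_rfl hmb.le hxm
  have hxC : ¬ Cof P (FI a b') x :=
    hT2 P hP hC a b' x hab' hxab' hxR (T3_gL_zero hmb hxm)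
  have hxC' : ¬ Cof P (FI a b') x⁻¹ := by
    intro h
    have := h.inv
    rw [inv_inv] at this
    exact hxC this
  have hukC : Cof P (FI a b') (u ^ k) := by
    by_contra h
    have h1 := hCT5 F P hP hC (FI a b') (u ^ k) x⁻¹ (Subgroup.zpow_mem _ huab' k)
      (Subgroup.inv_mem _ hxab') h hxC'
    apply h1
    have h2 : u ^ k * x⁻¹ = w := by
      rw [hx]
      group
    rw [h2]
    exact hwC
  have huC : Cof P (FI a b') u := hukC.of_zpow huab'
  refine ⟨⟨u, ⟨c, hcb, hu⟩, huC.mono (FI_mono le_rfl hbb'.le) huab⟩, ?_⟩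
  rintro ⟨v, ⟨a2, ha2, hv⟩, hvC⟩
  have hvn : ∀ n : ℤ, ¬ Cof P (FI a b') (v ^ n) := by
    intro n
    have h1 : v ^ n ∈ FI a2 b := Subgroup.zpow_mem _ hv n
    exact hT2 P hP hC a b' (v ^ n) hab' (FI_mono ha2.le hbb'.le h1) (T3_gR_zero ha2 h1)
      (T3_gL_zero hbb' h1)
  obtain ⟨u', hu'P, hu'C, hu'm⟩ : ∃ u' : F, P u' ∧ Cof P (FI a b') u' ∧ u' ∈ FI a b := by
    rcases hP.tri u (huC.ne_one hP) with h | h
    · exact ⟨u, h, huC, huab⟩
    · exact ⟨u⁻¹, h, huC.inv, Subgroup.inv_mem _ huab⟩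
  obtain ⟨n, hn⟩ := hvC.2 u' hu'm
  have h1 := hCT6 F P hP hC (FI a b') (v ^ n) u'
    (Subgroup.zpow_mem _ (FI_mono ha2.le hbb'.le hv) n) (hvn n) hu'C hu'P
  have h2 := hP.anti _ hn
  apply h2
  have h3 : (u'⁻¹ * v ^ n)⁻¹ = (v ^ n)⁻¹ * u' := by group
  rw [h3]
  exact h1

end Pool.Agent.IRO
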