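import Pool.Agent.helper44.IRO.T1

set_option autoImplicit false

/-! # Row T5: elements with a nonzero exponent at an end are cofinal -/

open MeasureTheory Pool.Agent.LOF

namespace Pool.Agent.IRO

theorem T5 (hCT2 : CT2_stmt) (hCT5 : CT5_stmt) (hCT9 : CT9_stmt) (hG1 : G1_stmt) (hG2 : G2_stmt)
    (hG3 : G3_stmt) (hG4 : G4_stmt) (hG8 : G8_stmt) : T5_stmt := by
  intro P hP hC a b v k hab hvm hk0
  obtain ⟨f, _, hfC⟩ := T1_cof hCT2 hG4 hG8 hP hC hab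
  have hfa : f.1 a = a := mem_FI.mp hfC.1 a fun h => lt_irrefl _ h.1
  have hfb : f.1 b = b := mem_FI.mp hfC.1 b fun h => lt_irrefl _ h.2
  constructor
  · intro hA hv
    have key : ∀ g ∈ FI a b, gL g.1 b 0 → ¬ Cof P (FI a b) g := by
      intro g hg hg0 hgC
      obtain ⟨b', _, hb', _, hgb'⟩ := (hG3 a b g hab.2.2.2.1 hg).1 hg0
      exact hA ⟨g, ⟨b', hb', hgb'⟩, hgC⟩
    obtain ⟨m, hm, _⟩ := (hG1 f b hfb).1
    by_contra hvC
    have hvC' : ¬ Cof P (FI a b) (v ^ m) := fun h => hvC (h.of_zpow hvm)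
    have h1 : gL (f ^ k : F).1 b (k * m) := T3_gL_zpow hG2 f.1 b m hm k
    have h2 : gL (v ^ (-m) : F).1 b (-m * k) := T3_gL_zpow hG2 v.1 b k hv (-m)
    have h3 := (hG2 (f ^ k : F).1 (v ^ (-m) : F).1 b (k * m) (-m * k)).1 h1 h2
    have h4 : k * m + -m * k = 0 := by ring
    rw [h4] at h3
    have hzm : f ^ k * v ^ (-m) ∈ FI a b := Subgroup.mul_mem _ (Subgroup.zpow_mem _ hfC.1 k)
      (Subgroup.zpow_mem _ hvm (-m))
    have h5 := key (f ^ k * v ^ (-m)) hzm h3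
    have h6 := hCT5 F P hP hC (FI a b) (f ^ k * v ^ (-m)) (v ^ m) hzm
      (Subgroup.zpow_mem _ hvm m) h5 hvC'
    apply h6
    have h7 : f ^ k * v ^ (-m) * v ^ m = f ^ k := by
      rw [mul_assoc, ← zpow_add, neg_add_cancel, zpow_zero, mul_one]
    rw [h7]
    exact hCT9 F P hP (FI a b) f k hfC hk0
  · intro hB hv
    have key : ∀ g ∈ FI a b, gR g.1 a 0 → ¬ Cof P (FI a b) g := by
      intro g hg hg0 hgC
      obtain ⟨a', ha', _, _, hga'⟩ := (hG3 a b g hab.2.2.2.1 hg).2 hg0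
      exact hB ⟨g, ⟨a', ha', hga'⟩, hgC⟩
    obtain ⟨m, hm, _⟩ := (hG1 f a hfa).2
    by_contra hvC
    have hvC' : ¬ Cof P (FI a b) (v ^ m) := fun h => hvC (h.of_zpow hvm)
    have h1 : gR (f ^ k : F).1 a (k * m) := T3_gR_zpow hG2 f.1 a m hm k
    have h2 : gR (v ^ (-m) : F).1 a (-m * k) := T3_gR_zpow hG2 v.1 a k hv (-m)
    have h3 := (hG2 (f ^ k : F).1 (v ^ (-m) : F).1 a (k * m) (-m * k)).2.2.1 h1 h2
    have h4 : k * m + -m * k = 0 := by ring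
    rw [h4] at h3
    have hzm : f ^ k * v ^ (-m) ∈ FI a b := Subgroup.mul_mem _ (Subgroup.zpow_mem _ hfC.1 k)
      (Subgroup.zpow_mem _ hvm (-m))
    have h5 := key (f ^ k * v ^ (-m)) hzm h3
    have h6 := hCT5 F P hP hC (FI a b) (f ^ k * v ^ (-m)) (v ^ m) hzm
      (Subgroup.zpow_mem _ hvm m) h5 hvC'
    apply h6
    have h7 : f ^ k * v ^ (-m) * v ^ m = f ^ k := by
      rw [mul_assoc, ← zpow_add, neg_add_cancel, zpow_zero, mul_one]
    rw [h7]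
    exact hCT9 F P hP (FI a b) f k hfC hk0

end Pool.Agent.IRO
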