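import Pool.Agent.helper44.IRO.T3

set_option autoImplicit false

/-! # Row T5s: the sign of an element with a positive exponent at the right end -/

open MeasureTheory Pool.Agent.LOF

namespace Pool.Agent.IRO

theorem T5s_pos_of_zpow {P : F → Prop} (hP : Cone P) {w : F} {k : ℤ} (hk : 0 < k)
    (h : P (w ^ k)) : P w := by
  obtain ⟨n, rfl⟩ := Int.eq_ofNat_of_zero_le hk.le
  have hn : 0 < n := by exact_mod_cast hk
  have h' : P (w ^ n) := by
    rwa [zpow_natCast] at h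
  rcases hP.tri' w with h1 | h1 | h1
  · exact h1
  · rw [h1, one_pow] at h'
    exact absurd h' hP.ne
  · have h2 := hP.pow h1 hn
    rw [inv_pow] at h2
    exact absurd h2 (hP.anti _ h')

theorem T5s_aux (hT5 : T5_stmt) (hCT7 : CT7_stmt) (hG2 : G2_stmt) (hG3 : G3_stmt)
    (P : F → Prop) (hP : Cone P) (hC : Conr P) (a b : ℝ) (v w : F) (k l : ℤ) (hab : Dy a b)
    (hv : v ∈ FI a b) (hw : w ∈ FI a b) (hk : 0 < k) (hl : 0 < l) (hA : ¬ Aty P a b)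
    (hvL : gL v.1 b k) (hwL : gL w.1 b l) (hPv : P v) : P w := by
  have h1 : gL (v ^ (-l) : F).1 b (-l * k) := T3_gL_zpow hG2 v.1 b k hvL (-l)
  have h2 : gL (w ^ k : F).1 b (k * l) := T3_gL_zpow hG2 w.1 b l hwL k
  have h3 := (hG2 (w ^ k : F).1 (v ^ (-l) : F).1 b (k * l) (-l * k)).1 h2 h1
  have h4 : k * l + -l * k = 0 := by ring
  rw [h4] at h3
  have hcm : w ^ k * v ^ (-l) ∈ FI a b := Subgroup.mul_mem _ (Subgroup.zpow_mem _ hw k)
    (Subgroup.zpow_mem _ hv (-l))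
  have hcC : ¬ Cof P (FI a b) (w ^ k * v ^ (-l)) := by
    intro hcC
    obtain ⟨b', _, hb', _, hcb'⟩ := (hG3 a b _ hab.2.2.2.1 hcm).1 h3
    exact hA ⟨_, ⟨b', hb', hcb'⟩, hcC⟩
  have hvl : gL (v ^ l : F).1 b (l * k) := T3_gL_zpow hG2 v.1 b k hvL l
  have hvlC : Cof P (FI a b) (v ^ l) := (hT5 P hP hC a b (v ^ l) (l * k) hab
    (Subgroup.zpow_mem _ hv l) (mul_pos hl hk).ne').1 hA hvl
  have hvlP : P (v ^ l) := by
    obtain ⟨n, rfl⟩ := Int.eq_ofNat_of_zero_le hl.le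
    rw [zpow_natCast]
    exact hP.pow hPv (by exact_mod_cast hl)
  have h5 := (hCT7 F P hP hC (FI a b) (w ^ k * v ^ (-l)) (v ^ l) hcm hcC hvlC hvlP).2
  have h6 : w ^ k * v ^ (-l) * v ^ l = w ^ k := by
    rw [mul_assoc, ← zpow_add, neg_add_cancel, zpow_zero, mul_one]
  rw [h6] at h5
  exact T5s_pos_of_zpow hP hk h5

theorem T5s (hT5 : T5_stmt) (hCT7 : CT7_stmt) (hG2 : G2_stmt) (hG3 : G3_stmt) : T5s_stmt := by
  intro P hP hC a b v w k l hab hv hw hk hl hA hvL hwL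
  exact ⟨T5s_aux hT5 hCT7 hG2 hG3 P hP hC a b v w k l hab hv hw hk hl hA hvL hwL,
    T5s_aux hT5 hCT7 hG2 hG3 P hP hC a b w v l k hab hw hv hl hk hA hwL hvL⟩

end Pool.Agent.IRO
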