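import Pool.Agent.helper44.IRO.T3

set_option autoImplicit false

/-! # Row T6: elements of an interval moved by `g` are infinitesimal with respect to `g` -/

open MeasureTheory Pool.Agent.LOF

namespace Pool.Agent.IRO

theorem T6 (hCT2 : CT2_stmt) (hCT5 : CT5_stmt) (hCT6 : CT6_stmt) (hCT7 : CT7_stmt)
    (hT5 : T5_stmt) (hG4 : G4_stmt) (hG7 : G7_stmt) (hG8 : G8_stmt) : T6_stmt := by
  intro P hP hC hno a b g h hab hgb hh
  obtain ⟨a0, _, haa0, ha0b, v, hv, hv1⟩ := (hG4 a b hab.2.2.1.le hab.2.2.2.1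
    hab.2.2.2.2.le).1 hab.2.1
  have hvm : v ∈ FI a b := FI_mono haa0.le le_rfl hv
  have hvC : Cof P (FI a b) v := (hT5 P hP hC a b v 1 hab.dy hvm one_ne_zero).1 (hno a b hab) hv1
  set H : Subgroup F := Subgroup.zpowers g ⊔ FI a b with hH
  have hgH : g ∈ H := Subgroup.mem_sup_left (Subgroup.mem_zpowers g)
  have hFH : FI a b ≤ H := le_sup_right
  -- `v` is not cofinal in `H`
  have hvH : ¬ Cof P H v := by
    intro hvH
    obtain ⟨g', hg'H, hg'b⟩ : ∃ g' ∈ H, b < g'.1 b := by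
      rcases lt_or_gt_of_ne hgb with h1 | h1
      · refine ⟨g⁻¹, H.inv_mem hgH, ?_⟩
        have h2 := (g⁻¹ : F).1.strictMono h1
        have h3 : (g⁻¹ : F).1 (g.1 b) = b := g.1.symm_apply_apply b
        rwa [h3] at h2
      · exact ⟨g, hgH, h1⟩
    have h0 : g'.1 0 = 0 := F.out g'.2 (by simp)
    have h1 : g'.1 1 = 1 := F.out g'.2 (by simp)
    have hga0 : 0 < g'.1 a := by
      have := g'.1.strictMono hab.2.2.1
      rwa [h0] at this
    have hgb1 : g'.1 b < 1 := by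
      have := g'.1.strictMono hab.2.2.2.2
      rwa [h1] at this
    have hda : IsDyadic (g'.1 a) := F.dyadic g'.2 hab.1
    have hdb : IsDyadic (g'.1 b) := F.dyadic g'.2 hab.2.1
    set a' : ℝ := min a (g'.1 a) with ha'
    have hda' : IsDyadic a' := by
      rcases min_choice a (g'.1 a) with h2 | h2
      · rw [ha', h2]
        exact hab.1
      · rw [ha', h2]
        exact hda
    have hDy : Dyi a' (g'.1 b) := ⟨hda', hdb, lt_min hab.2.2.1 hga0,
      (min_le_left _ _).trans_lt (hab.2.2.2.1.trans hg'b), hgb1⟩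
    have hsub : FI a b ≤ FI a' (g'.1 b) := FI_mono (min_le_left _ _) hg'b.le
    set w : F := g' * v * g'⁻¹ with hw
    have hwm : w ∈ FI a' (g'.1 b) := FI_mono (min_le_right _ _) le_rfl (FI_conj hvm g')
    have hwH : w ∈ H := H.mul_mem (H.mul_mem hg'H (hFH hvm)) (H.inv_mem hg'H)
    have hw1 : gL w.1 (g'.1 b) 1 := (hG7 g' v b 1).1 hv1
    have hwC : Cof P (FI a' (g'.1 b)) w := (hT5 P hP hC a' (g'.1 b) w 1 hDy.dy hwm
      one_ne_zero).1 (hno _ _ hDy) hw1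
    obtain ⟨w', hw'P, hw'C, hw'H⟩ : ∃ w' : F, P w' ∧ Cof P (FI a' (g'.1 b)) w' ∧ w' ∈ H := by
      rcases hP.tri w (hwC.ne_one hP) with h2 | h2
      · exact ⟨w, h2, hwC, hwH⟩
      · exact ⟨w⁻¹, h2, hwC.inv, H.inv_mem hwH⟩
    obtain ⟨n, hn⟩ := hvH.2 w' hw'H
    have hvnm : v ^ n ∈ FI a b := Subgroup.zpow_mem _ hvm n
    have hvnC : ¬ Cof P (FI a' (g'.1 b)) (v ^ n) := fun h2 =>
      hno _ _ hDy ⟨v ^ n, ⟨b, hg'b, FI_mono (min_le_left _ _) le_rfl hvnm⟩, h2⟩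
    have h2 := hCT6 F P hP hC (FI a' (g'.1 b)) (v ^ n) w' (hsub hvnm) hvnC hw'C hw'P
    apply hP.anti _ hn
    have h3 : (w'⁻¹ * v ^ n)⁻¹ = (v ^ n)⁻¹ * w' := by group
    rw [h3]
    exact h2
  -- no element of `FI a b` is cofinal in `H`
  have hFn : ∀ x ∈ FI a b, ¬ Cof P H x := by
    intro x hx hxC
    apply hvH
    refine ⟨hFH hvm, fun k hk => ?_⟩
    obtain ⟨n, hn⟩ := hxC.2 k hk
    obtain ⟨m, hm⟩ := hvC.2 (x ^ n) (Subgroup.zpow_mem _ hx n)
    refine ⟨m, ?_⟩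
    have h2 := hP.mul _ _ hn hm
    have h3 : k⁻¹ * x ^ n * ((x ^ n)⁻¹ * v ^ m) = k⁻¹ * v ^ m := by group
    rwa [h3] at h2
  -- `g` is cofinal in `H`
  have hgC : Cof P H g := by
    by_contra hgn
    let NC : Subgroup F :=
      { carrier := {x | x ∈ H ∧ ¬ Cof P H x}
        one_mem' := ⟨H.one_mem, fun h2 => h2.ne_one hP rfl⟩
        mul_mem' := fun {x y} hx hy => ⟨H.mul_mem hx.1 hy.1,
          hCT5 F P hP hC H x y hx.1 hy.1 hx.2 hy.2⟩
        inv_mem' := fun {x} hx => ⟨H.inv_mem hx.1, fun h2 => hx.2 (by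
          have h3 := h2.inv
          rwa [inv_inv] at h3)⟩ }
    have hle : H ≤ NC := by
      rw [hH]
      refine sup_le ?_ ?_
      · rw [Subgroup.zpowers_le]
        exact ⟨hgH, hgn⟩
      · intro x hx
        exact ⟨hFH hx, hFn x hx⟩
    have hFG : H.FG := by
      apply Subgroup.FG.sup
      · exact ⟨{g}, by rw [Finset.coe_singleton, ← Subgroup.zpowers_eq_closure]⟩
      · exact hG8 a b hab.dy
    have hne : H ≠ ⊥ := by
      intro h2
      rw [h2, Subgroup.mem_bot] at hgH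
      apply hgb
      rw [hgH]
      rfl
    obtain ⟨x, _, hxC⟩ := hCT2 F P hP hC H hFG hne
    exact (hle hxC.1).2 hxC
  constructor
  · intro hPgh
    by_contra hPg
    have hPg' : P g⁻¹ := (hP.tri g (hgC.ne_one hP)).resolve_left hPg
    have h2 := (hCT7 F P hP hC H h⁻¹ g⁻¹ (H.inv_mem (hFH hh))
      (hFn _ (Subgroup.inv_mem _ hh)) hgC.inv hPg').2
    rw [← mul_inv_rev] at h2
    exact hP.anti _ hPgh h2
  · intro hPg
    exact (hCT7 F P hP hC H h g (hFH hh) (hFn h hh) hgC hPg).1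

end Pool.Agent.IRO
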